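import Mathlib

set_option autoImplicit false

namespace Pool.Agent.Results.MP_6f4934_co.Bound

def coef (n i j k : ℕ) : Fin n → ℝ := fun t =>
  (if i ≤ t.val ∧ t.val < j then 1 else 0) - (if j ≤ t.val ∧ t.val < k then 1 else 0)

def TypeA (m : ℕ) (d : Fin (m + 1) → ℝ) : Prop :=
  (∀ t, 0 < d t) ∧ ∃ i j k : Fin m → ℕ, (∀ r, i r < j r ∧ j r < k r ∧ k r ≤ m + 1) ∧
    LinearIndependent ℝ (fun r => coef (m + 1) (i r) (j r) (k r)) ∧
    ∀ r, ∑ t, coef (m + 1) (i r) (j r) (k r) t * d t = 0

def Un {n : ℕ} (p : Fin n → ℤ) : Prop :=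
  (∀ c, p c = 0 ∨ p c = 1) ∧ ∀ c c', p c = 1 → p c' = 1 → c = c'

def Edge {n : ℕ} (v : Fin n → ℤ) : Prop := ∃ p q, Un p ∧ Un q ∧ v = p - q

lemma Un.sum {n : ℕ} {p : Fin n → ℤ} (h : Un p) : p = 0 ∨ ∑ c, p c = 1 := by
  by_cases h0 : ∃ c, p c = 1
  · obtain ⟨c, hc⟩ := h0
    right
    rw [Finset.sum_eq_single c, hc]
    · exact fun b _ hb => (h.1 b).resolve_right fun h' => hb (h.2 b c h' hc)
    · simp
  · left
    funext c
    exact (h.1 c).resolve_right fun h' => h0 ⟨c, h'⟩

lemma Un.abs_sum {n : ℕ} {p : Fin n → ℤ} (h : Un p) : ∑ c, |p c| ≤ 1 := by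
  have : ∀ c, |p c| = p c := fun c => by rcases h.1 c with h | h <;> simp [h]
  simp only [this]
  rcases h.sum with h | h
  · simp [h]
  · exact h.le

lemma det_edge (n : ℕ) : ∀ A : Matrix (Fin n) (Fin n) ℤ, (∀ r, Edge (A r)) → |A.det| ≤ 1 := by
  induction n with
  | zero => intro A _; simp
  | succ n ih =>
    intro A hA
    by_cases h : ∃ r, ∑ c, |A r c| ≤ 1
    · obtain ⟨r, hr⟩ := h
      rw [Matrix.det_succ_row A r]
      refine (Finset.abs_sum_le_sum_abs _ _).trans (le_trans (Finset.sum_le_sum fun c _ => ?_) hr)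
      have h1 := ih (A.submatrix r.succAbove c.succAbove) fun r' => by
        obtain ⟨p, q, hp, hq, h⟩ := hA (r.succAbove r')
        refine ⟨p ∘ c.succAbove, q ∘ c.succAbove, ⟨fun _ => hp.1 _, fun a b h1 h2 =>
          Fin.succAbove_right_injective (hp.2 _ _ h1 h2)⟩, ⟨fun _ => hq.1 _, fun a b h1 h2 =>
          Fin.succAbove_right_injective (hq.2 _ _ h1 h2)⟩, ?_⟩
        funext c'
        simp [h]
      rw [abs_mul, abs_mul, abs_pow, abs_neg, abs_one, one_pow, one_mul]
      exact mul_le_of_le_one_right (abs_nonneg _) h1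
    · push Not at h
      have h0 : A.det = 0 := by
        rw [← Matrix.exists_mulVec_eq_zero_iff]
        refine ⟨fun _ => 1, fun h => by simpa using congrFun h 0, ?_⟩
        funext r
        obtain ⟨p, q, hp, hq, hr⟩ := hA r
        have h1 := h r
        rcases hp.sum with h2 | h2
        · have := hq.abs_sum
          simp [hr, h2] at h1
          omega
        rcases hq.sum with h3 | h3
        · have := hp.abs_sum
          simp [hr, h3] at h1
          omega
        simp [Matrix.mulVec, dotProduct, hr, Finset.sum_sub_distrib, h2, h3]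
      simp [h0]

lemma det_two (n : ℕ) (s : Finset (Fin n)) : ∀ A : Matrix (Fin n) (Fin n) ℤ,
    (∀ r, r ∉ s → Edge (A r)) → (∀ r ∈ s, ∃ u v, Edge u ∧ Edge v ∧ A r = u + v) →
    |A.det| ≤ 2 ^ s.card := by
  induction s using Finset.induction_on with
  | empty => intro A h _; simpa using det_edge n A fun r => h r (by simp)
  | insert r s hr ih =>
    intro A h1 h2
    obtain ⟨u, v, hu, hv, h⟩ := h2 r (Finset.mem_insert_self _ _)
    have key : ∀ w, Edge w → |(A.updateRow r w).det| ≤ 2 ^ s.card := fun w hw => by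
      refine ih _ (fun r' hr' => ?_) fun r' hr' => ?_
      · by_cases h3 : r' = r
        · rw [h3, Matrix.updateRow_self]; exact hw
        · rw [Matrix.updateRow_ne h3]; exact h1 r' (by simp [h3, hr'])
      · rw [Matrix.updateRow_ne (fun h3 : r' = r => hr (h3 ▸ hr'))]
        exact h2 r' (Finset.mem_insert_of_mem hr')
    rw [← A.updateRow_eq_self r, h, Matrix.det_updateRow_add, Finset.card_insert_of_notMem hr,
      pow_succ]
    have := abs_add_le (A.updateRow r u).det (A.updateRow r v).det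
    linarith [key u hu, key v hv]

def pt (n a : ℕ) : Fin n → ℤ := fun c => if c.val + 1 = a then 1 else 0

lemma un_pt (n a : ℕ) : Un (pt n a) := by
  refine ⟨fun c => by unfold pt; split_ifs <;> simp, fun c c' h h' => ?_⟩
  unfold pt at h h'
  split_ifs at h h' <;> omega

def iv (n i j : ℕ) : Fin n → ℤ := fun t => if i ≤ t.val ∧ t.val < j then 1 else 0

def U (n : ℕ) : Matrix (Fin n) (Fin n) ℤ := fun a c =>
  (if a = c then 1 else 0) - (if a.val = c.val + 1 then 1 else 0)

lemma det_U (n : ℕ) : (U n).det = 1 := by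
  rw [Matrix.det_of_isLowerTriangular]
  · simp [U]
  · intro a c h
    have h : a < c := h
    have h' : a.val < c.val := h
    simp [U, h.ne]
    omega

lemma iv_U (n i j : ℕ) (hij : i ≤ j) (hj : j ≤ n) :
    Matrix.vecMul (iv n i j) (U n) = pt n j - pt n i := by
  funext c
  simp only [Matrix.vecMul, dotProduct, U, mul_sub, Finset.sum_sub_distrib, mul_ite, mul_one,
    mul_zero, Finset.sum_ite_eq', Finset.mem_univ, if_true, Pi.sub_apply]
  by_cases hc : c.val + 1 < n
  · rw [Finset.sum_eq_single ⟨c.val + 1, hc⟩]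
    · simp only [iv, pt, if_true]
      split_ifs <;> omega
    · intro b _ hb
      rw [if_neg fun h => hb (Fin.ext h)]
    · simp
  · rw [Finset.sum_eq_zero fun b _ => if_neg (by have := b.2; omega)]
    have := c.2
    simp only [iv, pt]
    split_ifs <;> omega

theorem result (m : ℕ) (d : Fin (m + 1) → ℝ) (hd : TypeA m d) (t : Fin (m + 1)) :
    ∑ s, d s ≤ 2 ^ m * d t := by
  obtain ⟨hpos, i, j, k, hijk, hli, heq⟩ := hd
  let M : Matrix (Fin (m + 1)) (Fin (m + 1)) ℤ :=
    Matrix.of (Fin.cons (iv (m + 1) 0 (m + 1))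
      fun r => iv (m + 1) (i r) (j r) - iv (m + 1) (j r) (k r))
  have hM : |M.det| ≤ 2 ^ m := by
    have h1 := det_two (m + 1) (Finset.univ.erase 0) (M * U (m + 1)) (fun r hr => by
      have hr : r = 0 := by simpa using hr
      subst hr
      exact ⟨_, _, un_pt _ _, un_pt _ _, iv_U (m + 1) 0 (m + 1) (by omega) le_rfl⟩) fun r hr => by
      obtain ⟨r, rfl⟩ := Fin.exists_succ_eq.2 (Finset.ne_of_mem_erase hr)
      obtain ⟨h1, h2, h3⟩ := hijk r
      refine ⟨_, _, ⟨_, _, un_pt _ (j r), un_pt _ (i r), rfl⟩,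
        ⟨_, _, un_pt _ (j r), un_pt _ (k r), rfl⟩, ?_⟩
      show Matrix.vecMul (iv (m + 1) (i r) (j r) - iv (m + 1) (j r) (k r)) (U (m + 1)) = _
      rw [Matrix.sub_vecMul, iv_U _ _ _ h1.le (by omega), iv_U _ _ _ h2.le h3]
      ring
    simpa [det_U] using h1
  let N : Matrix (Fin (m + 1)) (Fin (m + 1)) ℝ := M.map (Int.castRingHom ℝ)
  have hN0 : N 0 = fun _ => 1 := by
    funext c
    have := c.2
    simp [N, M, iv]
    omega
  have hNs : ∀ r : Fin m, N r.succ = coef (m + 1) (i r) (j r) (k r) := fun r => by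
    funext c
    simp [N, M, iv, coef]
  have hS : 0 < ∑ s, d s := Finset.sum_pos (fun s _ => hpos s) Finset.univ_nonempty
  have hNd : N.mulVec d = Pi.single 0 (∑ s, d s) := by
    funext r
    refine Fin.cases ?_ (fun r => ?_) r
    · simp [Matrix.mulVec, dotProduct, hN0]
    · simp [Matrix.mulVec, dotProduct, hNs, heq]
  have hdet : N.det ≠ 0 := by
    intro h
    obtain ⟨c, hc, hcN⟩ := Matrix.exists_vecMul_eq_zero_iff.2 h
    have h1 : c ⬝ᵥ N.mulVec d = 0 := by rw [Matrix.dotProduct_mulVec, hcN, zero_dotProduct]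
    rw [hNd, dotProduct_single] at h1
    have h2 : c 0 = 0 := (mul_eq_zero.1 h1).resolve_right hS.ne'
    have h3 := Fintype.linearIndependent_iff.1 hli (fun r => c r.succ) (by
      funext a
      have := congrFun hcN a
      simpa [Matrix.vecMul, dotProduct, Fin.sum_univ_succ, h2, hNs] using this)
    apply hc
    funext r
    exact Fin.cases h2 h3 r
  have h4 : N.det * d t = (M.adjugate t 0 : ℝ) * ∑ s, d s := by
    have h5 : N.adjugate.mulVec (N.mulVec d) = N.det • d := by
      rw [Matrix.mulVec_mulVec, Matrix.adjugate_mul, Matrix.smul_mulVec, Matrix.one_mulVec]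
    have h6 := congrFun h5 t
    rw [hNd] at h6
    have h7 : N.adjugate = M.adjugate.map (Int.castRingHom ℝ) :=
      ((Int.castRingHom ℝ).map_adjugate M).symm
    rw [h7] at h6
    simpa [Matrix.mulVec, mul_comm] using h6.symm
  have h8 : M.adjugate t 0 ≠ 0 := by
    intro h
    rw [h] at h4
    simp [hdet, (hpos t).ne'] at h4
  have h9 : (1 : ℝ) ≤ |(M.adjugate t 0 : ℝ)| := by exact_mod_cast Int.one_le_abs h8
  have h10 : |N.det| ≤ 2 ^ m := by
    have : N.det = (M.det : ℝ) := ((Int.castRingHom ℝ).map_det M).symm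
    rw [this]
    exact_mod_cast hM
  have h11 := congrArg abs h4
  rw [abs_mul, abs_mul, abs_of_pos hS, abs_of_pos (hpos t)] at h11
  nlinarith [hpos t]

end Pool.Agent.Results.MP_6f4934_co.Bound
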